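import Pool.Agent.H82.Subrank.Sampling

/-!
Orbitals of a transitive group and the bound on products of orbitals.
-/

set_option autoImplicit false

namespace Pool.Agent.H82.Subrank

open MulAction

universe u

/-- Cauchy-Schwarz for numbers of orbits. -/
theorem card_orbits_prod {H : Type*} {X Y : Type u} [Group H] [Finite H] [MulAction H X] [MulAction H Y]
    [Finite X] [Finite Y] {m : ℕ}
    (hX : Nat.card (orbitRel.Quotient H (X × X)) ≤ m)
    (hY : Nat.card (orbitRel.Quotient H (Y × Y)) ≤ m) :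
    Nat.card (orbitRel.Quotient H (X × Y)) ≤ m := by
  classical
  have := Fintype.ofFinite H
  have := Fintype.ofFinite X
  have := Fintype.ofFinite Y
  have key : ∀ (U V : Type u) [MulAction H U] [MulAction H V] [Fintype U] [Fintype V],
      ∑ h : H, Nat.card (fixedBy U h) * Nat.card (fixedBy V h)
        = Nat.card (orbitRel.Quotient H (U × V)) * Nat.card H := by
    intro U V _ _ _ _
    have := Fintype.ofFinite (orbitRel.Quotient H (U × V))
    have h1 := sum_card_fixedBy_eq_card_orbits_mul_card_group (G := H) (X := U × V)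
    rw [Nat.card_eq_fintype_card, Nat.card_eq_fintype_card]
    convert h1 using 1
    · refine Finset.sum_congr rfl fun h _ => ?_
      rw [← Nat.card_prod, ← Nat.card_eq_fintype_card]
      apply Nat.card_congr
      refine ⟨fun p => ⟨(p.1.1, p.2.1), ?_⟩, fun p => (⟨p.1.1, ?_⟩, ⟨p.1.2, ?_⟩), ?_, ?_⟩
      · have h1 : h • p.1.1 = p.1.1 := p.1.2
        have h2 : h • p.2.1 = p.2.1 := p.2.2
        rw [mem_fixedBy, Prod.smul_mk, h1, h2]
      · have h1 : h • p.1 = p.1 := p.2
        exact congrArg Prod.fst h1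
      · have h1 : h • p.1 = p.1 := p.2
        exact congrArg Prod.snd h1
      · intro p; rfl
      · intro p; rfl
  have kXX := key X X
  have kYY := key Y Y
  have kXY := key X Y
  set c := Nat.card (orbitRel.Quotient H (X × Y))
  have hcs := Finset.sum_mul_sq_le_sq_mul_sq (Finset.univ : Finset H)
    (fun h => (Nat.card (fixedBy X h) : ℤ)) (fun h => (Nat.card (fixedBy Y h) : ℤ))
  have e1 : ∑ h : H, (Nat.card (fixedBy X h) : ℤ) * (Nat.card (fixedBy Y h) : ℤ)
      = (c : ℤ) * Nat.card H := by exact_mod_cast kXY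
  have e2 : ∑ h : H, (Nat.card (fixedBy X h) : ℤ) ^ 2
      = (Nat.card (orbitRel.Quotient H (X × X)) : ℤ) * Nat.card H := by
    rw [← Nat.cast_mul, ← kXX]
    push_cast
    exact Finset.sum_congr rfl fun h _ => sq _
  have e3 : ∑ h : H, (Nat.card (fixedBy Y h) : ℤ) ^ 2
      = (Nat.card (orbitRel.Quotient H (Y × Y)) : ℤ) * Nat.card H := by
    rw [← Nat.cast_mul, ← kYY]
    push_cast
    exact Finset.sum_congr rfl fun h _ => sq _
  rw [e1, e2, e3] at hcs
  have hH : (0 : ℤ) < Nat.card H := by exact_mod_cast Nat.card_pos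
  have h1 : (c : ℤ) ^ 2 ≤ m ^ 2 := by
    have hX' : (Nat.card (orbitRel.Quotient H (X × X)) : ℤ) ≤ m := by exact_mod_cast hX
    have hY' : (Nat.card (orbitRel.Quotient H (Y × Y)) : ℤ) ≤ m := by exact_mod_cast hY
    have h2 : (c : ℤ) ^ 2 * (Nat.card H) ^ 2 ≤ m ^ 2 * (Nat.card H : ℤ) ^ 2 := by
      calc (c : ℤ) ^ 2 * (Nat.card H) ^ 2 = ((c : ℤ) * Nat.card H) ^ 2 := by ring
        _ ≤ (Nat.card (orbitRel.Quotient H (X × X)) : ℤ) * Nat.card H *
            ((Nat.card (orbitRel.Quotient H (Y × Y)) : ℤ) * Nat.card H) := hcs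
        _ = (Nat.card (orbitRel.Quotient H (X × X)) : ℤ) *
            (Nat.card (orbitRel.Quotient H (Y × Y)) : ℤ) * (Nat.card H : ℤ) ^ 2 := by ring
        _ ≤ (m * m : ℤ) * (Nat.card H : ℤ) ^ 2 := by
            apply mul_le_mul_of_nonneg_right _ (by positivity)
            exact mul_le_mul hX' hY' (by positivity) (by positivity)
        _ = m ^ 2 * (Nat.card H : ℤ) ^ 2 := by ring
    exact le_of_mul_le_mul_right h2 (by positivity)
  have h2 : c ^ 2 ≤ m ^ 2 := by exact_mod_cast h1
  exact (Nat.pow_le_pow_iff_left (by norm_num)).1 h2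

/-- The frozen form of the rank of a constituent bounds the number of orbits on pairs. -/
theorem card_constituent {H α : Type*} [Group H] [Finite H] [MulAction H α] [Finite α]
    (δ : α) {m : ℕ}
    (h : Set.ncard {O : Set α | ∃ y ∈ orbit H δ, O = orbit (stabilizer H δ) y} ≤ m) :
    Nat.card (orbitRel.Quotient H (orbit H δ × orbit H δ)) ≤ m := by
  classical
  refine le_trans ?_ h
  rw [← Nat.card_coe_set_eq]
  -- the injection
  let f : orbit H δ × orbit H δ → Set α := fun p => {z | ∃ g : H, g • (p.1 : α) = δ ∧ g • (p.2 : α) = z}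
  have hf : ∀ p, ∃ y ∈ orbit H δ, f p = orbit (stabilizer H δ) y := by
    intro p
    obtain ⟨g, hg⟩ := p.1.2
    obtain ⟨g', hg'⟩ := p.2.2
    simp only at hg hg'
    refine ⟨g⁻¹ • (p.2 : α), ?_, ?_⟩
    · rw [← hg', smul_smul]
      exact mem_orbit _ _
    · ext z
      simp only [f, Set.mem_ofPred_eq, mem_orbit_iff]
      constructor
      · rintro ⟨u, hu, rfl⟩
        refine ⟨⟨u * g, ?_⟩, ?_⟩
        · rw [mem_stabilizer_iff, mul_smul, hg, hu]
        · change (u * g) • g⁻¹ • (p.2 : α) = u • (p.2 : α)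
          rw [smul_smul, mul_assoc, mul_inv_cancel, mul_one]
      · rintro ⟨⟨u, hu⟩, rfl⟩
        rw [mem_stabilizer_iff] at hu
        refine ⟨u * g⁻¹, ?_, ?_⟩
        · rw [← hg, smul_smul, mul_assoc, inv_mul_cancel, mul_one, hu]
        · change (u * g⁻¹) • (p.2 : α) = u • g⁻¹ • (p.2 : α)
          rw [mul_smul]
  let F : orbitRel.Quotient H (orbit H δ × orbit H δ) →
      {O : Set α | ∃ y ∈ orbit H δ, O = orbit (stabilizer H δ) y} :=
    Quotient.lift (fun p => ⟨f p, hf p⟩) (by
      rintro p q hpq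
      have hpq' : p ∈ orbit H q := hpq
      obtain ⟨g, rfl⟩ := hpq'
      apply Subtype.ext
      ext z
      simp only [f, Set.mem_ofPred_eq]
      constructor
      · rintro ⟨u, hu, rfl⟩
        refine ⟨u * g, ?_, ?_⟩
        · rw [mul_smul]
          exact hu
        · rw [mul_smul]
          rfl
      · rintro ⟨u, hu, rfl⟩
        refine ⟨u * g⁻¹, ?_, ?_⟩
        · change (u * g⁻¹) • g • (q.1 : α) = δ
          rw [smul_smul, mul_assoc, inv_mul_cancel, mul_one, hu]
        · change (u * g⁻¹) • g • (q.2 : α) = u • (q.2 : α)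
          rw [smul_smul, mul_assoc, inv_mul_cancel, mul_one])
  apply Nat.card_le_card_of_injective F
  intro a b
  induction a using Quotient.inductionOn with
  | _ p =>
    induction b using Quotient.inductionOn with
    | _ q =>
      intro hpq
      have h1 : f p = f q := congrArg Subtype.val hpq
      obtain ⟨g, hg⟩ := p.1.2
      simp only at hg
      have h2 : g⁻¹ • (p.2 : α) ∈ f p := ⟨g⁻¹, by rw [← hg, inv_smul_smul], rfl⟩
      rw [h1] at h2
      obtain ⟨u, hu1, hu2⟩ := h2
      apply Quotient.sound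
      change p ∈ orbit H q
      refine ⟨g * u, ?_⟩
      apply Prod.ext
      · apply Subtype.ext
        change (g * u) • (q.1 : α) = p.1
        rw [mul_smul, hu1, hg]
      · apply Subtype.ext
        change (g * u) • (q.2 : α) = p.2
        rw [mul_smul, hu2, smul_inv_smul]

section Orb

variable (G : Type*) {α : Type*} [Group G] [MulAction G α]

/-- The orbital of a pair. -/
def orb (x y : α) : orbitRel.Quotient G (α × α) := Quotient.mk (orbitRel G (α × α)) (x, y)

theorem orb_eq_iff {x y x' y' : α} :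
    orb G x y = orb G x' y' ↔ ∃ g : G, g • x' = x ∧ g • y' = y := by
  unfold orb
  rw [Quotient.eq]
  change (x, y) ∈ orbit G (x', y') ↔ _
  rw [mem_orbit_iff]
  constructor
  · rintro ⟨g, hg⟩
    exact ⟨g, congrArg Prod.fst hg, congrArg Prod.snd hg⟩
  · rintro ⟨g, h1, h2⟩
    exact ⟨g, Prod.ext h1 h2⟩

@[simp] theorem orb_smul (g : G) (x y : α) : orb G (g • x) (g • y) = orb G x y :=
  (orb_eq_iff G).2 ⟨g, rfl, rfl⟩

theorem orb_swap {x y x' y' : α} (h : orb G x y = orb G x' y') : orb G y x = orb G y' x' := by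
  rw [orb_eq_iff] at h ⊢
  obtain ⟨g, h1, h2⟩ := h
  exact ⟨g, h2, h1⟩

/-- products of orbitals -/
def KK (p q : orbitRel.Quotient G (α × α)) : Set (orbitRel.Quotient G (α × α)) :=
  {r | ∃ w x y, orb G w x = p ∧ orb G w y = q ∧ orb G x y = r}

/-- the rank bound passes to orbitals -/
theorem rank_le_card [IsPretransitive G α] [Finite α] (a : α) :
    Nat.card (orbitRel.Quotient (stabilizer G a) α) ≤ Nat.card (orbitRel.Quotient G (α × α)) := by
  classical
  let F : orbitRel.Quotient (stabilizer G a) α → orbitRel.Quotient G (α × α) :=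
    Quotient.lift (fun y => orb G a y) (by
      rintro p q hpq
      have hpq' : p ∈ orbit (stabilizer G a) q := hpq
      obtain ⟨⟨g, hg⟩, rfl⟩ := hpq'
      rw [mem_stabilizer_iff] at hg
      change orb G a (g • q) = orb G a q
      nth_rewrite 1 [← hg]
      rw [orb_smul])
  apply Nat.card_le_card_of_injective F
  intro u v
  induction u using Quotient.inductionOn with
  | _ p =>
    induction v using Quotient.inductionOn with
    | _ q =>
      intro hpq
      have h1 : orb G a p = orb G a q := hpq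
      rw [orb_eq_iff] at h1
      obtain ⟨g, h2, h3⟩ := h1
      apply Quotient.sound
      change p ∈ orbit (stabilizer G a) q
      exact ⟨⟨g, h2⟩, h3⟩

theorem card_KK [IsPretransitive G α] [Finite G] [Finite α] (a : α) {m : ℕ}
    (h : ∀ δ : α, Set.ncard {O : Set α | ∃ y ∈ orbit (stabilizer G a) δ,
      O = orbit (stabilizer (stabilizer G a) δ) y} ≤ m)
    (p q : orbitRel.Quotient G (α × α)) : (KK G p q).ncard ≤ m := by
  classical
  by_cases hne : (KK G p q).Nonempty
  swap
  · rw [Set.not_nonempty_iff_eq_empty] at hne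
    rw [hne]
    simp
  obtain ⟨_, w, x, y, hp, hq, _⟩ := hne
  obtain ⟨g, hg⟩ := exists_smul_eq G w a
  set δ := g • x with hδ
  set δ' := g • y with hδ'
  have hp' : orb G a δ = p := by rw [← hg, hδ, orb_smul, hp]
  have hq' : orb G a δ' = q := by rw [← hg, hδ', orb_smul, hq]
  have h1 := card_orbits_prod (card_constituent δ (h δ)) (card_constituent δ' (h δ'))
  refine le_trans ?_ h1
  -- the surjection
  let F : orbitRel.Quotient (stabilizer G a)
      (orbit (stabilizer G a) δ × orbit (stabilizer G a) δ') → orbitRel.Quotient G (α × α) :=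
    Quotient.lift (fun r => orb G (r.1 : α) (r.2 : α)) (by
      rintro r s hrs
      have hrs' : r ∈ orbit (stabilizer G a) s := hrs
      obtain ⟨u, rfl⟩ := hrs'
      exact orb_smul G (u : G) (s.1 : α) (s.2 : α))
  have hsub : KK G p q ⊆ Set.range F := by
    rintro r ⟨w', x', y', hp1, hq1, rfl⟩
    obtain ⟨g', hg'⟩ := exists_smul_eq G w' a
    have hx : g' • x' ∈ orbit (stabilizer G a) δ := by
      have : orb G a (g' • x') = orb G a δ := by
        rw [← hg', orb_smul, hp1, hg', hp']
      rw [orb_eq_iff] at this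
      obtain ⟨u, hu1, hu2⟩ := this
      exact ⟨⟨u, hu1⟩, hu2⟩
    have hy : g' • y' ∈ orbit (stabilizer G a) δ' := by
      have : orb G a (g' • y') = orb G a δ' := by
        rw [← hg', orb_smul, hq1, hg', hq']
      rw [orb_eq_iff] at this
      obtain ⟨u, hu1, hu2⟩ := this
      exact ⟨⟨u, hu1⟩, hu2⟩
    refine ⟨Quotient.mk _ (⟨_, hx⟩, ⟨_, hy⟩), ?_⟩
    change orb G (g' • x') (g' • y') = _
    rw [orb_smul]
  calc (KK G p q).ncard ≤ (Set.range F).ncard := Set.ncard_le_ncard hsub (Set.toFinite _)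
    _ ≤ _ := by
      rw [← Set.image_univ, ← Set.ncard_univ]
      exact Set.ncard_image_le (Set.toFinite _)

end Orb

end Pool.Agent.H82.Subrank
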