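import Mathlib

/-!
A sampling lemma in the style of Croot and Sisask.
-/

set_option autoImplicit false

namespace Pool.Agent.H82.Subrank

open Finset

theorem second_moment {ι : Type*} [Fintype ι] (ψ : ι → ℤ) (h : ∑ z, ψ z = 0) (L : ℕ) :
    (Fintype.card ι : ℤ) * ∑ z : Fin L → ι, (∑ i, ψ (z i)) ^ 2
      = L * (Fintype.card ι : ℤ) ^ L * ∑ z, ψ z ^ 2 := by
  induction L with
  | zero => simp
  | succ L ih =>
    have h1 : ∑ z : Fin (L + 1) → ι, (∑ i, ψ (z i)) ^ 2
        = ∑ p : ι × (Fin L → ι), (ψ p.1 + ∑ i, ψ (p.2 i)) ^ 2 := by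
      symm
      apply Fintype.sum_equiv (Fin.consEquiv (fun _ => ι))
      rintro ⟨a, z⟩
      simp [Fin.consEquiv, Fin.sum_univ_succ]
    have h2 : ∑ p : ι × (Fin L → ι), (ψ p.1 + ∑ i, ψ (p.2 i)) ^ 2
        = (Fintype.card ι : ℤ) ^ L * ∑ z, ψ z ^ 2
          + (Fintype.card ι : ℤ) * ∑ z : Fin L → ι, (∑ i, ψ (z i)) ^ 2 := by
      rw [Fintype.sum_prod_type]
      have h3 : ∀ a : ι, ∑ z : Fin L → ι, (ψ a + ∑ i, ψ (z i)) ^ 2
          = (Fintype.card ι : ℤ) ^ L * ψ a ^ 2
            + 2 * ψ a * (∑ z : Fin L → ι, ∑ i, ψ (z i))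
            + ∑ z : Fin L → ι, (∑ i, ψ (z i)) ^ 2 := by
        intro a
        have : ∀ z : Fin L → ι, (ψ a + ∑ i, ψ (z i)) ^ 2
            = ψ a ^ 2 + 2 * ψ a * (∑ i, ψ (z i)) + (∑ i, ψ (z i)) ^ 2 := fun z => by ring
        simp only [this, Finset.sum_add_distrib, ← Finset.mul_sum]
        simp
      simp only [h3, Finset.sum_add_distrib]
      rw [← Finset.mul_sum, ← Finset.sum_mul, ← Finset.mul_sum, h]
      simp
    rw [h1, h2]
    push_cast
    linear_combination (Fintype.card ι : ℤ) * ih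

variable {α : Type*} [Fintype α] [DecidableEq α] (D : α → Finset α)

/-- number of common neighbours -/
def II (x w : α) : ℕ := (D x ∩ D w).card

/-- squared distance -/
def Dst (x y : α) : ℤ := ∑ w, ((II D x w : ℤ) - II D y w) ^ 2

theorem Dst_nonneg (x y : α) : 0 ≤ Dst D x y := Finset.sum_nonneg fun _ _ => sq_nonneg _

theorem Dst_self (x : α) : Dst D x x = 0 := by simp [Dst]

theorem Dst_comm (x y : α) : Dst D x y = Dst D y x := by
  unfold Dst
  refine Finset.sum_congr rfl fun w _ => ?_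
  ring

theorem Dst_triangle (x y z : α) : Dst D x z ≤ 2 * Dst D x y + 2 * Dst D y z := by
  unfold Dst
  rw [Finset.mul_sum, Finset.mul_sum, ← Finset.sum_add_distrib]
  refine Finset.sum_le_sum fun w _ => ?_
  nlinarith [sq_nonneg ((II D x w : ℤ) - 2 * II D y w + II D z w)]

/-- error of a sample -/
def EE (k : ℕ) {L : ℕ} (x : α) (z : Fin L → α) : ℤ :=
  ∑ w, ((k : ℤ) * (∑ i, if z i ∈ D w then 1 else 0) - L * II D x w) ^ 2

variable {k L : ℕ}

theorem sum_II (hD : ∀ x, (D x).card = k) (hD' : ∀ z, (univ.filter (fun y => z ∈ D y)).card = k)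
    (x : α) : ∑ w, II D x w = k * k := by
  unfold II
  have h1 : ∀ w, (D x ∩ D w).card = ∑ z ∈ D x, if z ∈ D w then 1 else 0 := by
    intro w
    rw [Finset.sum_ite_mem]
    simp
  simp only [h1]
  rw [Finset.sum_comm]
  have h2 : ∀ z ∈ D x, ∑ w, (if z ∈ D w then 1 else 0) = k := by
    intro z _
    rw [← hD' z, Finset.card_filter]
  rw [Finset.sum_congr rfl h2]
  simp [hD]

theorem sum_EE (hk : 0 < k) (hD : ∀ x, (D x).card = k)
    (hD' : ∀ z, (univ.filter (fun y => z ∈ D y)).card = k) (x : α) :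
    ∑ z : Fin L → D x, EE D k x (fun i => (z i : α)) ≤ L * k ^ (L + 3) := by
  have hcard : Fintype.card (D x) = k := by simp [hD]
  set ψ : α → D x → ℤ := fun w z => (k : ℤ) * (if (z : α) ∈ D w then 1 else 0) - II D x w with hψ
  have hI : ∀ w, ∑ z : D x, (if (z : α) ∈ D w then (1 : ℤ) else 0) = II D x w := by
    intro w
    rw [Finset.sum_coe_sort (D x) (fun z => if z ∈ D w then (1 : ℤ) else 0), Finset.sum_ite_mem]
    simp [II]
  have hsum : ∀ w, ∑ z, ψ w z = 0 := by
    intro w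
    simp only [hψ]
    rw [Finset.sum_sub_distrib, ← Finset.mul_sum, hI]
    simp [hD]
  have hsq : ∀ w, ∑ z, ψ w z ^ 2 ≤ (k : ℤ) ^ 2 * II D x w := by
    intro w
    have h1 : ∀ z : D x, ψ w z ^ 2 = ((k : ℤ) ^ 2 - 2 * k * II D x w) *
        (if (z : α) ∈ D w then 1 else 0) + (II D x w : ℤ) ^ 2 := by
      intro z
      simp only [hψ]
      split_ifs <;> ring
    simp only [h1]
    rw [Finset.sum_add_distrib, ← Finset.mul_sum, hI]
    simp [hD]
    nlinarith [sq_nonneg (II D x w : ℤ)]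
  have hE : ∀ z : Fin L → D x, EE D k x (fun i => (z i : α)) = ∑ w, (∑ i, ψ w (z i)) ^ 2 := by
    intro z
    unfold EE
    refine Finset.sum_congr rfl fun w _ => ?_
    congr 1
    simp only [hψ]
    rw [Finset.sum_sub_distrib, ← Finset.mul_sum]
    simp
  have hkey : (k : ℤ) * ∑ z : Fin L → D x, EE D k x (fun i => (z i : α))
      ≤ (k : ℤ) * (L * k ^ (L + 3)) := by
    simp only [hE]
    rw [Finset.sum_comm, Finset.mul_sum]
    calc ∑ w, (k : ℤ) * ∑ z : Fin L → D x, (∑ i, ψ w (z i)) ^ 2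
        = ∑ w, (L : ℤ) * (k : ℤ) ^ L * ∑ z, ψ w z ^ 2 := by
          refine Finset.sum_congr rfl fun w _ => ?_
          have := second_moment (ψ w) (hsum w) L
          rwa [hcard] at this
      _ ≤ ∑ w, (L : ℤ) * (k : ℤ) ^ L * ((k : ℤ) ^ 2 * II D x w) := by
          refine Finset.sum_le_sum fun w _ => ?_
          exact mul_le_mul_of_nonneg_left (hsq w) (by positivity)
      _ = (k : ℤ) * (L * k ^ (L + 3)) := by
          rw [← Finset.mul_sum, ← Finset.mul_sum]
          have := sum_II D hD hD' x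
          have h2 : (∑ w, (II D x w : ℤ)) = (k : ℤ) * k := by exact_mod_cast this
          rw [h2]
          ring
  have hk' : (0 : ℤ) < k := by exact_mod_cast hk
  exact le_of_mul_le_mul_left hkey hk'

/-- good samples -/
noncomputable def good (k L : ℕ) (x : α) : Finset (Fin L → α) :=
  univ.filter (fun z => (∀ i, z i ∈ D x) ∧ EE D k x z ≤ 2 * L * k ^ 3)

theorem card_good (hk : 0 < k) (hL : 0 < L) (hD : ∀ x, (D x).card = k)
    (hD' : ∀ z, (univ.filter (fun y => z ∈ D y)).card = k) (x : α) :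
    k ^ L ≤ 2 * (good D k L x).card := by
  classical
  have hcard : Fintype.card (Fin L → D x) = k ^ L := by simp [hD]
  have hsum := sum_EE (L := L) D hk hD hD' x
  set bad : Finset (Fin L → D x) :=
    univ.filter (fun z => ¬ (EE D k x (fun i => (z i : α)) ≤ 2 * L * k ^ 3)) with hbad
  have h1 : (bad.card : ℤ) * (2 * L * k ^ 3)
      ≤ ∑ z : Fin L → D x, EE D k x (fun i => (z i : α)) := by
    calc (bad.card : ℤ) * (2 * L * k ^ 3) = ∑ z ∈ bad, (2 * L * k ^ 3 : ℤ) := by simp
      _ ≤ ∑ z ∈ bad, EE D k x (fun i => (z i : α)) := by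
          refine Finset.sum_le_sum fun z hz => ?_
          rw [hbad, Finset.mem_filter] at hz
          push Not at hz
          exact hz.2.le
      _ ≤ ∑ z : Fin L → D x, EE D k x (fun i => (z i : α)) := by
          refine Finset.sum_le_sum_of_subset_of_nonneg (Finset.subset_univ _) fun z _ _ => ?_
          exact Finset.sum_nonneg fun _ _ => sq_nonneg _
  have h2 : 2 * bad.card ≤ k ^ L := by
    have h3 : (bad.card : ℤ) * (2 * L * k ^ 3) ≤ L * k ^ (L + 3) := h1.trans hsum
    have h4 : (L * k ^ 3 : ℤ) * (2 * bad.card) ≤ (L * k ^ 3 : ℤ) * k ^ L := by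
      calc (L * k ^ 3 : ℤ) * (2 * bad.card) = (bad.card : ℤ) * (2 * L * k ^ 3) := by ring
        _ ≤ L * k ^ (L + 3) := h3
        _ = (L * k ^ 3 : ℤ) * k ^ L := by ring
    have h5 : (0 : ℤ) < L * k ^ 3 := by positivity
    have h6 := le_of_mul_le_mul_left h4 h5
    exact_mod_cast h6
  set gd : Finset (Fin L → D x) :=
    univ.filter (fun z => EE D k x (fun i => (z i : α)) ≤ 2 * L * k ^ 3) with hgd
  have h3 : gd.card + bad.card = k ^ L := by
    rw [← hcard, ← Finset.card_univ]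
    exact Finset.card_filter_add_card_filter_not _
  have h4 : gd.card ≤ (good D k L x).card := by
    apply Finset.card_le_card_of_injOn (fun z i => (z i : α))
    · intro z hz
      rw [hgd] at hz
      simp only [Finset.coe_filter, Finset.mem_univ, true_and, Set.mem_ofPred_eq] at hz
      simp only [good, Finset.coe_filter, Finset.mem_univ, true_and, Set.mem_ofPred_eq]
      exact ⟨fun i => (z i).2, hz⟩
    · intro z _ z' _ h
      funext i
      exact Subtype.ext (congrFun h i)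
  omega

theorem sampling {m : ℕ} (hk : 0 < k) (hL : 0 < L) (hD : ∀ x, (D x).card = k)
    (hD' : ∀ z, (univ.filter (fun y => z ∈ D y)).card = k) (Y Z : Finset α)
    (hY : Y.card = k) (hZ : Z.card ≤ m * k) (hYZ : ∀ x ∈ Y, D x ⊆ Z) (hbig : 2 * m ^ L < k) :
    ∃ x ∈ Y, ∃ x' ∈ Y, x ≠ x' ∧ L * Dst D x x' ≤ 8 * k ^ 3 := by
  classical
  have h1 : ∃ x ∈ Y, ∃ x' ∈ Y, x ≠ x' ∧ ¬ Disjoint (good D k L x) (good D k L x') := by
    by_contra hcon
    push Not at hcon
    have h2 : (Y.biUnion (good D k L)).card = ∑ x ∈ Y, (good D k L x).card := by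
      apply Finset.card_biUnion
      intro x hx y hy hxy
      exact hcon x hx y hy hxy
    have h3 : (Y.biUnion (good D k L)) ⊆ Fintype.piFinset (fun _ : Fin L => Z) := by
      intro z hz
      rw [Finset.mem_biUnion] at hz
      obtain ⟨x, hx, hz⟩ := hz
      rw [Fintype.mem_piFinset]
      intro i
      simp only [good, Finset.mem_filter, Finset.mem_univ, true_and] at hz
      exact hYZ x hx (hz.1 i)
    have h4 := Finset.card_le_card h3
    rw [Fintype.card_piFinset] at h4
    simp only [Finset.prod_const, Finset.card_univ, Fintype.card_fin] at h4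
    have h5 : k * k ^ L ≤ 2 * ∑ x ∈ Y, (good D k L x).card := by
      rw [Finset.mul_sum, ← hY]
      have : ∑ x ∈ Y, Y.card ^ L ≤ ∑ x ∈ Y, 2 * (good D k L x).card := by
        refine Finset.sum_le_sum fun x _ => ?_
        rw [hY]
        exact card_good D hk hL hD hD' x
      rw [hY] at this ⊢
      simpa [hY] using this
    have h6 : Z.card ^ L ≤ (m * k) ^ L := Nat.pow_le_pow_left hZ L
    have h7 : k * k ^ L ≤ 2 * (m * k) ^ L := by
      calc k * k ^ L ≤ 2 * ∑ x ∈ Y, (good D k L x).card := h5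
        _ ≤ 2 * Z.card ^ L := by rw [← h2]; omega
        _ ≤ 2 * (m * k) ^ L := by omega
    rw [mul_pow] at h7
    have h8 : 0 < k ^ L := by positivity
    have h9 : k ≤ 2 * m ^ L := by
      have : k * k ^ L ≤ (2 * m ^ L) * k ^ L := by
        calc k * k ^ L ≤ 2 * (m ^ L * k ^ L) := h7
          _ = (2 * m ^ L) * k ^ L := by ring
      exact Nat.le_of_mul_le_mul_right this h8
    omega
  obtain ⟨x, hx, x', hx', hne, hnd⟩ := h1
  refine ⟨x, hx, x', hx', hne, ?_⟩
  rw [Finset.not_disjoint_iff] at hnd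
  obtain ⟨z, hz, hz'⟩ := hnd
  simp only [good, Finset.mem_filter, Finset.mem_univ, true_and] at hz hz'
  have h2 : (L : ℤ) ^ 2 * Dst D x x' ≤ 2 * EE D k x z + 2 * EE D k x' z := by
    unfold Dst EE
    rw [Finset.mul_sum, Finset.mul_sum, Finset.mul_sum, ← Finset.sum_add_distrib]
    refine Finset.sum_le_sum fun w _ => ?_
    set A : ℤ := (k : ℤ) * (∑ i, if z i ∈ D w then 1 else 0)
    nlinarith [sq_nonneg ((A - L * II D x w) + (A - L * II D x' w))]
  have h3 : (L : ℤ) * (L * Dst D x x') ≤ L * (8 * k ^ 3) := by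
    calc (L : ℤ) * (L * Dst D x x') = (L : ℤ) ^ 2 * Dst D x x' := by ring
      _ ≤ 2 * EE D k x z + 2 * EE D k x' z := h2
      _ ≤ 2 * (2 * L * k ^ 3) + 2 * (2 * L * k ^ 3) := by linarith [hz.2, hz'.2]
      _ = L * (8 * k ^ 3) := by ring
  exact le_of_mul_le_mul_left h3 (by exact_mod_cast hL)

end Pool.Agent.H82.Subrank
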