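import Mathlib

/-!
Small point stabilizers without regular suborbit force bounded degree.
-/

set_option autoImplicit false

namespace Pool.Agent.H82.Subrank

open MulAction

/-- If point stabilizers have order at most `B` and there is no regular suborbit, the degree is
bounded. -/
theorem step_four {G α : Type*} [Group G] [MulAction G α] [Finite G] [Finite α]
    [IsPreprimitive G α] [FaithfulSMul G α] (a : α) {B : ℕ}
    (hB : ∀ x : α, Nat.card (stabilizer G x) ≤ B)
    (hreg : ∀ y : α, stabilizer (stabilizer G a) y ≠ ⊥) :
    Nat.card α ≤ (B ^ 2).factorial := by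
  classical
  have := Fintype.ofFinite G
  have := Fintype.ofFinite α
  have hstab : ∀ x : α, (Finset.univ.filter (fun g : G => g • x = x)).card ≤ B := by
    intro x
    refine le_trans (le_of_eq ?_) (hB x)
    rw [Nat.card_eq_fintype_card]
    exact (Fintype.card_of_subtype _ (fun g => by simp [mem_stabilizer_iff])).symm
  -- a nonidentity element of the stabilizer with many fixed points
  have h1 : ∃ h : G, h ≠ 1 ∧ h • a = a ∧
      Fintype.card α ≤ B * (Finset.univ.filter (fun y : α => h • y = y)).card := by
    by_contra hcon
    push Not at hcon
    set S : Finset G := Finset.univ.filter (fun h : G => h ≠ 1 ∧ h • a = a) with hS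
    have hScard : S.card ≤ B := by
      refine le_trans (Finset.card_le_card ?_) (hstab a)
      intro g hg
      rw [hS, Finset.mem_filter] at hg
      exact Finset.mem_filter.2 ⟨Finset.mem_univ _, hg.2.2⟩
    have hcov : (Finset.univ : Finset α) ⊆
        S.biUnion (fun h => Finset.univ.filter (fun y : α => h • y = y)) := by
      intro y _
      obtain ⟨g, hg, hg1⟩ := (Subgroup.bot_or_exists_ne_one _).resolve_left (hreg y)
      rw [Finset.mem_biUnion]
      refine ⟨(g : G), ?_, ?_⟩
      · rw [hS, Finset.mem_filter]
        refine ⟨Finset.mem_univ _, ?_, g.2⟩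
        intro h0
        apply hg1
        ext
        exact h0
      · rw [Finset.mem_filter]
        exact ⟨Finset.mem_univ _, hg⟩
    have hSne : S.Nonempty := by
      rw [Finset.nonempty_iff_ne_empty]
      intro h0
      have := hcov (Finset.mem_univ a)
      rw [h0] at this
      simp at this
    have h2 : Fintype.card α ≤
        ∑ h ∈ S, (Finset.univ.filter (fun y : α => h • y = y)).card := by
      calc Fintype.card α = (Finset.univ : Finset α).card := rfl
        _ ≤ _ := Finset.card_le_card hcov
        _ ≤ _ := Finset.card_biUnion_le
    have h3 : ∑ h ∈ S, B * (Finset.univ.filter (fun y : α => h • y = y)).card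
        < ∑ _h ∈ S, Fintype.card α := by
      apply Finset.sum_lt_sum_of_nonempty hSne
      intro h hh
      rw [hS, Finset.mem_filter] at hh
      exact hcon h hh.2.1 hh.2.2
    rw [← Finset.mul_sum, Finset.sum_const, smul_eq_mul] at h3
    have h4 : B * Fintype.card α < B * Fintype.card α :=
      calc B * Fintype.card α
          ≤ B * ∑ h ∈ S, (Finset.univ.filter (fun y : α => h • y = y)).card :=
            Nat.mul_le_mul_left _ h2
        _ < S.card * Fintype.card α := h3
        _ ≤ B * Fintype.card α := Nat.mul_le_mul_right _ hScard
    exact lt_irrefl _ h4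
  obtain ⟨h, hh1, hha, hn⟩ := h1
  set C : Finset G := Finset.univ.filter (fun c : G => IsConj c h) with hC
  -- conjugates of `h` have as many fixed points
  have hfix : ∀ c ∈ C, (Finset.univ.filter (fun y : α => c • y = y)).card =
      (Finset.univ.filter (fun y : α => h • y = y)).card := by
    intro c hc
    rw [hC, Finset.mem_filter, isConj_iff] at hc
    obtain ⟨u, hu⟩ := hc.2
    refine Finset.card_bij (fun y _ => u • y) ?_ ?_ ?_
    · intro y hy
      rw [Finset.mem_filter] at hy ⊢
      refine ⟨Finset.mem_univ _, ?_⟩
      rw [← hu, mul_smul, mul_smul, inv_smul_smul, hy.2]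
    · intro y _ z _ hyz
      exact smul_left_cancel _ hyz
    · intro y hy
      rw [Finset.mem_filter] at hy
      refine ⟨u⁻¹ • y, ?_, smul_inv_smul _ _⟩
      rw [Finset.mem_filter]
      refine ⟨Finset.mem_univ _, ?_⟩
      have h5 : c = u⁻¹ * h * u := by rw [← hu]; group
      rw [h5, mul_smul, mul_smul, smul_inv_smul, hy.2]
  have hcount : C.card * (Finset.univ.filter (fun y : α => h • y = y)).card
      ≤ Fintype.card α * B := by
    calc C.card * (Finset.univ.filter (fun y : α => h • y = y)).card
        = ∑ c ∈ C, (Finset.univ.filter (fun y : α => c • y = y)).card := by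
          rw [Finset.sum_congr rfl hfix, Finset.sum_const, smul_eq_mul]
      _ = ∑ y : α, (C.filter (fun c => c • y = y)).card := by
          simp only [Finset.card_filter]
          exact Finset.sum_comm
      _ ≤ ∑ _y : α, B := by
          apply Finset.sum_le_sum
          intro y _
          refine le_trans (Finset.card_le_card ?_) (hstab y)
          exact Finset.filter_subset_filter _ (Finset.subset_univ _)
      _ = Fintype.card α * B := by rw [Finset.sum_const, smul_eq_mul]; rfl
  have hpos : 0 < (Finset.univ.filter (fun y : α => h • y = y)).card :=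
    Finset.card_pos.2 ⟨a, Finset.mem_filter.2 ⟨Finset.mem_univ _, hha⟩⟩
  have hCcard : C.card ≤ B ^ 2 := by
    have h6 : C.card * (Finset.univ.filter (fun y : α => h • y = y)).card ≤
        B ^ 2 * (Finset.univ.filter (fun y : α => h • y = y)).card := by
      calc _ ≤ Fintype.card α * B := hcount
        _ ≤ (B * (Finset.univ.filter (fun y : α => h • y = y)).card) * B :=
            Nat.mul_le_mul_right _ hn
        _ = _ := by ring
    exact Nat.le_of_mul_le_mul_right h6 hpos
  -- the centralizer of the normal closure is trivial
  have hK : Subgroup.centralizer ((Subgroup.normalClosure {h} : Subgroup G) : Set G) = ⊥ := by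
    by_contra hne
    have hnt : ¬ (fixedPoints (Subgroup.centralizer
        ((Subgroup.normalClosure {h} : Subgroup G) : Set G)) α = Set.univ) := by
      intro hfp
      apply hne
      rw [Subgroup.eq_bot_iff_forall]
      intro g hg
      apply FaithfulSMul.eq_of_smul_eq_smul (α := α)
      intro y
      rw [one_smul]
      have : y ∈ fixedPoints (Subgroup.centralizer
        ((Subgroup.normalClosure {h} : Subgroup G) : Set G)) α := hfp ▸ Set.mem_univ y
      exact this ⟨g, hg⟩
    have htr : IsPretransitive (Subgroup.centralizer
        ((Subgroup.normalClosure {h} : Subgroup G) : Set G)) α :=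
      IsQuasiPreprimitive.isPretransitive_of_normal hnt
    apply hh1
    apply FaithfulSMul.eq_of_smul_eq_smul (α := α)
    intro y
    obtain ⟨k, hk⟩ := htr.exists_smul_eq a y
    have hk2 : h * (k : G) = (k : G) * h :=
      Subgroup.mem_centralizer_iff.1 k.2 h (Subgroup.subset_normalClosure rfl)
    have hk' : (k : G) • a = y := hk
    rw [one_smul, ← hk', ← mul_smul, hk2, mul_smul, hha]
  -- hence `G` acts faithfully on the conjugates
  have hinj : Function.Injective
      (toPermHom (ConjAct G) (orbit (ConjAct G) h)) := by
    rw [injective_iff_map_eq_one]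
    intro g hg
    have h7 : (ConjAct.ofConjAct g) ∈
        Subgroup.centralizer ((Subgroup.normalClosure {h} : Subgroup G) : Set G) := by
      rw [Subgroup.mem_centralizer_iff]
      intro x hx
      have h8 : Subgroup.normalClosure {h} ≤
          Subgroup.centralizer ({ConjAct.ofConjAct g} : Set G) := by
        rw [Subgroup.normalClosure, Subgroup.closure_le]
        intro c hc
        rw [Group.mem_conjugatesOfSet_iff] at hc
        obtain ⟨b, hb, hbc⟩ := hc
        rw [Set.mem_singleton_iff] at hb
        subst hb
        have h9 : c ∈ orbit (ConjAct G) b := ConjAct.mem_orbit_conjAct.2 hbc.symm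
        have h10 : g • c = c := by
          have h11 := DFunLike.congr_fun hg (⟨c, h9⟩ : orbit (ConjAct G) b)
          exact congrArg Subtype.val h11
        rw [ConjAct.smul_def] at h10
        rw [SetLike.mem_coe, Subgroup.mem_centralizer_singleton_iff]
        rw [mul_inv_eq_iff_eq_mul] at h10
        exact h10.symm
      exact (Subgroup.mem_centralizer_singleton_iff.1 (h8 hx))
    rw [hK, Subgroup.mem_bot] at h7
    exact h7
  have hcardorb : Nat.card (orbit (ConjAct G) h) = C.card := by
    rw [Nat.card_eq_fintype_card]
    exact (Fintype.card_of_subtype _ (fun g => by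
      rw [hC, Finset.mem_filter, ConjAct.mem_orbit_conjAct]; simp))
  have hG : Nat.card G ≤ (B ^ 2).factorial := by
    calc Nat.card G = Nat.card (ConjAct G) := rfl
      _ ≤ Nat.card (Equiv.Perm (orbit (ConjAct G) h)) := Nat.card_le_card_of_injective _ hinj
      _ = (Nat.card (orbit (ConjAct G) h)).factorial := Nat.card_perm
      _ ≤ _ := by
        rw [hcardorb]
        exact Nat.factorial_le hCcard
  refine le_trans ?_ hG
  apply Nat.card_le_card_of_surjective (fun g : G => g • a)
  exact MulAction.surjective_smul G a

end Pool.Agent.H82.Subrank
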