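import Mathlib

/-!
Third step: a primitive group with bounded subdegrees has bounded degree or bounded stabilisers.
-/

set_option autoImplicit false

namespace Pool.Agent.H82.Subrank

open MulAction
open scoped Pointwise

variable {G α : Type*} [Group G] [MulAction G α]

theorem natCard_orbit_stab (K : Subgroup G) (y : α) :
    Nat.card (orbit K y) * Nat.card (stabilizer K y) = Nat.card K := by
  rw [← Nat.card_prod]
  exact Nat.card_congr (orbitProdStabilizerEquivGroup K y)

/-- pointwise stabiliser of a finite set -/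
def Fx (G : Type*) {α : Type*} [Group G] [MulAction G α] (S : Finset α) : Subgroup G :=
  fixingSubgroup G (S : Set α)

theorem mem_Fx {S : Finset α} {g : G} : g ∈ Fx G S ↔ ∀ s ∈ S, g • s = s := by
  unfold Fx
  rw [mem_fixingSubgroup_iff]
  simp

theorem Fx_anti {S T : Finset α} (h : S ⊆ T) : Fx G T ≤ Fx G S := by
  intro g hg
  rw [mem_Fx] at hg ⊢
  exact fun s hs => hg s (h hs)

variable [Finite G] [Finite α]

theorem card_orbit_le_of_le {K L : Subgroup G} (h : K ≤ L) (y : α) :
    Nat.card (orbit K y) ≤ Nat.card (orbit L y) := by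
  apply Nat.card_mono (Set.toFinite _)
  rintro _ ⟨g, rfl⟩
  exact ⟨⟨g.1, h g.2⟩, rfl⟩

theorem Fx_insert [DecidableEq α] {S : Finset α} {s : α} (hs : s ∈ S) (y : α) {C : ℕ}
    (hC : ∀ x y : α, Nat.card (orbit (stabilizer G x) y) ≤ C) :
    Nat.card (Fx G S) ≤ C * Nat.card (Fx G (insert y S)) := by
  rw [← natCard_orbit_stab (Fx G S) y]
  apply Nat.mul_le_mul
  · refine le_trans (card_orbit_le_of_le (L := stabilizer G s) ?_ y) (hC s y)
    intro g hg
    rw [mem_Fx] at hg
    exact hg s hs
  · apply Nat.card_le_card_of_injective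
      (fun u : stabilizer (Fx G S) y => (⟨u.1.1, by
        rw [mem_Fx]
        intro t ht
        rw [Finset.mem_insert] at ht
        rcases ht with rfl | ht
        · exact u.2
        · exact (mem_Fx.1 u.1.2) t ht⟩ : Fx G (insert y S)))
    intro u v h
    apply Subtype.ext
    apply Subtype.ext
    exact congrArg (fun w : Fx G (insert y S) => w.1) h

theorem card_stab_le [DecidableEq α] {C : ℕ} (hC1 : 1 ≤ C)
    (hC : ∀ x y : α, Nat.card (orbit (stabilizer G x) y) ≤ C) (s : α) (S : Finset α) :
    Nat.card (stabilizer G s) ≤ C ^ S.card * Nat.card (Fx G (insert s S)) := by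
  induction S using Finset.induction_on with
  | empty =>
    simp only [Finset.card_empty, pow_zero, one_mul]
    apply Nat.card_mono (Set.toFinite _)
    intro g hg
    have hg' : g • s = s := hg
    change g ∈ Fx G (insert s ∅)
    rw [mem_Fx]
    intro t ht
    simp only [insert_empty_eq, Finset.mem_singleton] at ht
    rw [ht, hg']
  | insert y S hy ih =>
    refine ih.trans ?_
    rw [Finset.card_insert_of_notMem hy, pow_succ, mul_assoc]
    apply Nat.mul_le_mul_left
    have := Fx_insert (G := G) (Finset.mem_insert_self s S) y hC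
    rwa [Finset.insert_comm] at this

/-- existence of a small set with small orbits -/
def PP (G α : Type*) [Group G] [MulAction G α] (e t : ℕ) : Prop :=
  ∃ S : Finset α, S.Nonempty ∧ S.card ≤ t ∧ ∀ γ : α, Nat.card (orbit (Fx G S) γ) ≤ e

theorem mem_Fx_smul [DecidableEq α] {S : Finset α} {g u : G} :
    u ∈ Fx G (g • S) ↔ g⁻¹ * u * g ∈ Fx G S := by
  rw [mem_Fx, mem_Fx]
  constructor
  · intro h s hs
    have := h (g • s) (Finset.smul_mem_smul_finset hs)
    rw [mul_smul, mul_smul, this, inv_smul_smul]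
  · intro h s hs
    obtain ⟨t, ht, rfl⟩ := Finset.mem_smul_finset.1 hs
    have := h t ht
    rw [mul_smul, mul_smul, inv_smul_eq_iff] at this
    exact this

theorem card_orbit_Fx_smul [DecidableEq α] (S : Finset α) (g : G) (γ : α) :
    Nat.card (orbit (Fx G (g • S)) γ) = Nat.card (orbit (Fx G S) (g⁻¹ • γ)) := by
  have h : orbit (Fx G (g • S)) γ = g • orbit (Fx G S) (g⁻¹ • γ) := by
    ext y
    rw [Set.mem_smul_set_iff_inv_smul_mem]
    constructor
    · rintro ⟨⟨u, hu⟩, rfl⟩
      refine ⟨⟨g⁻¹ * u * g, mem_Fx_smul.1 hu⟩, ?_⟩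
      change (g⁻¹ * u * g) • g⁻¹ • γ = g⁻¹ • u • γ
      rw [mul_smul, mul_smul, smul_inv_smul]
    · rintro ⟨⟨u, hu⟩, hy⟩
      have hy' : u • g⁻¹ • γ = g⁻¹ • y := hy
      refine ⟨⟨g * u * g⁻¹, ?_⟩, ?_⟩
      · rw [mem_Fx_smul]
        have : g⁻¹ * (g * u * g⁻¹) * g = u := by group
        rw [this]
        exact hu
      · change (g * u * g⁻¹) • γ = y
        rw [mul_smul, mul_smul, hy', smul_inv_smul]
  rw [h]
  exact Set.natCard_smul_set g _

/-- conjugation of `Fx` -/
theorem Fx_conj [DecidableEq α] {S : Finset α} {g u : G} (h : u ∈ Fx G S) (k : G) (hS : True) :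
    g * u * g⁻¹ ∈ Fx G (g • S) := by
  rw [mem_Fx_smul]
  have : g⁻¹ * (g * u * g⁻¹) * g = u := by group
  rw [this]
  exact h

theorem two_mul_card_le {K L : Subgroup G} (h : K < L) : 2 * Nat.card K ≤ Nat.card L := by
  obtain ⟨c, hc⟩ := Subgroup.card_dvd_of_le h.le
  have hpos : 0 < Nat.card L := Nat.card_pos
  rcases Nat.lt_or_ge c 2 with h2 | h2
  · exfalso
    interval_cases c
    · omega
    · rw [mul_one] at hc
      have := Subgroup.eq_of_le_of_card_ge h.le (by omega)
      exact h.ne this
  · rw [hc, mul_comm]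
    exact Nat.mul_le_mul_left _ h2

/-- The key descent step. -/
theorem descent [IsPreprimitive G α] [DecidableEq α] {C e t : ℕ} (he : 1 ≤ e)
    (heC : e + 1 ≤ C)
    (hC : ∀ x y : α, Nat.card (orbit (stabilizer G x) y) ≤ C) (hP : PP G α (e + 1) t) :
    Nat.card α ≤ C ∨ PP G α e (t * (C ^ (t + 1) + 1)) := by
  classical
  by_contra hcon
  push Not at hcon
  obtain ⟨hn, hP'⟩ := hcon
  obtain ⟨S, hSne, hSt, hS⟩ := hP
  set q := C ^ (t + 1) + 1 with hq
  have hP'' : ∀ S' : Finset α, S'.Nonempty → S'.card ≤ t * q →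
      ∃ γ : α, e + 1 ≤ Nat.card (orbit (Fx G S') γ) := by
    intro S' h1 h2
    by_contra h3
    push Not at h3
    exact hP' ⟨S', h1, h2, fun γ => Nat.le_of_lt_succ (h3 γ)⟩
  -- the group generated by conjugates
  let Y : Finset G → Subgroup G := fun T => ⨆ g ∈ T, Fx G (g • S)
  -- main property
  have hmain : ∀ T : Finset G, T.Nonempty → T.card ≤ q →
      ∃ Θ : Set α, ∃ γ ∈ Θ, Nat.card Θ = e + 1 ∧ (∀ g ∈ T, orbit (Fx G (g • S)) γ = Θ) ∧
        ∀ u ∈ Y T, u • Θ = Θ := by
    intro T hT hTq
    have h1 : (T.biUnion (fun g => g • S)).card ≤ t * q := by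
      calc (T.biUnion (fun g => g • S)).card ≤ ∑ g ∈ T, (g • S).card := Finset.card_biUnion_le
        _ = ∑ g ∈ T, S.card := Finset.sum_congr rfl fun g _ => Finset.card_smul_finset g S
        _ = T.card * S.card := by rw [Finset.sum_const, smul_eq_mul]
        _ ≤ q * t := Nat.mul_le_mul hTq hSt
        _ = t * q := mul_comm _ _
    have h2 : (T.biUnion (fun g => g • S)).Nonempty := by
      obtain ⟨g, hg⟩ := hT
      obtain ⟨s, hs⟩ := hSne
      exact ⟨g • s, Finset.mem_biUnion.2 ⟨g, hg, Finset.smul_mem_smul_finset hs⟩⟩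
    obtain ⟨γ, hγ⟩ := hP'' _ h2 h1
    set Θ := orbit (Fx G (T.biUnion (fun g => g • S))) γ with hΘ
    have h3 : ∀ g ∈ T, Θ ⊆ orbit (Fx G (g • S)) γ := by
      intro g hg
      rintro _ ⟨u, rfl⟩
      exact ⟨⟨u.1, Fx_anti (Finset.subset_biUnion_of_mem (fun g => g • S) hg) u.2⟩, rfl⟩
    have h4 : ∀ g ∈ T, Nat.card (orbit (Fx G (g • S)) γ) ≤ e + 1 := by
      intro g _
      rw [card_orbit_Fx_smul]
      exact hS _
    have h5 : ∀ g ∈ T, orbit (Fx G (g • S)) γ = Θ := by
      intro g hg
      symm
      apply Set.eq_of_subset_of_ncard_le (h3 g hg) _ (Set.toFinite _)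
      rw [← Nat.card_coe_set_eq, ← Nat.card_coe_set_eq]
      exact (h4 g hg).trans hγ
    have h6 : Nat.card Θ = e + 1 := by
      obtain ⟨g, hg⟩ := hT
      apply le_antisymm _ hγ
      rw [← h5 g hg]
      exact h4 g hg
    refine ⟨Θ, γ, mem_orbit_self γ, h6, h5, ?_⟩
    have h7 : Y T ≤ stabilizer G Θ := by
      apply iSup₂_le
      intro g hg u hu
      rw [mem_stabilizer_iff, ← h5 g hg]
      exact smul_orbit (⟨u, hu⟩ : Fx G (g • S)) γ
    intro u hu
    exact h7 hu
  obtain ⟨s, hs⟩ := hSne
  have hstab : ∀ x y : α, Nat.card (stabilizer G x) = Nat.card (stabilizer G y) := by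
    intro x y
    have h1 : ∀ z : α, Nat.card α * Nat.card (stabilizer G z) = Nat.card G := by
      intro z
      rw [← Nat.card_congr (orbitProdStabilizerEquivGroup G z), Nat.card_prod]
      congr 1
      rw [orbit_eq_univ G z]
      exact (Nat.card_congr (Equiv.Set.univ α)).symm
    have h2 : 0 < Nat.card α := Nat.card_pos_iff.2 ⟨⟨x⟩, inferInstance⟩
    exact Nat.eq_of_mul_eq_mul_left h2 ((h1 x).trans (h1 y).symm)
  have hC1 : 1 ≤ C := by omega
  -- size bound
  have hsize : ∀ T : Finset G, T.Nonempty → T.card ≤ q →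
      Nat.card (Y T) ≤ C ^ (t + 1) * Nat.card (Fx G S) := by
    intro T hT hTq
    obtain ⟨Θ, γ, hγ, hcard, _, hinv⟩ := hmain T hT hTq
    rw [← natCard_orbit_stab (Y T) γ]
    have h1 : Nat.card (orbit (Y T) γ) ≤ C := by
      refine le_trans ?_ heC
      rw [← hcard]
      apply Nat.card_mono (Set.toFinite _)
      rintro _ ⟨u, rfl⟩
      have := hinv u.1 u.2
      rw [← this]
      exact Set.smul_mem_smul_set hγ
    have h2 : Nat.card (stabilizer (Y T) γ) ≤ C ^ t * Nat.card (Fx G S) := by
      calc Nat.card (stabilizer (Y T) γ) ≤ Nat.card (stabilizer G γ) := by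
            apply Nat.card_le_card_of_injective
              (fun u : stabilizer (Y T) γ => (⟨u.1.1, u.2⟩ : stabilizer G γ))
            intro u v h
            apply Subtype.ext
            apply Subtype.ext
            exact congrArg (fun w : stabilizer G γ => w.1) h
        _ = Nat.card (stabilizer G s) := hstab _ _
        _ ≤ C ^ S.card * Nat.card (Fx G (insert s S)) := card_stab_le hC1 hC s S
        _ ≤ C ^ t * Nat.card (Fx G S) := by
            rw [Finset.insert_eq_of_mem hs]
            exact Nat.mul_le_mul_right _ (Nat.pow_le_pow_right hC1 hSt)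
    calc Nat.card (orbit (Y T) γ) * Nat.card (stabilizer (Y T) γ)
        ≤ C * (C ^ t * Nat.card (Fx G S)) := Nat.mul_le_mul h1 h2
      _ = C ^ (t + 1) * Nat.card (Fx G S) := by ring
  -- chain
  have hchain : ∀ l, l + 1 ≤ q → ∃ T : Finset G, T.Nonempty ∧ T.card ≤ l + 1 ∧
      ((∀ g : G, Fx G (g • S) ≤ Y T) ∨ 2 ^ l * Nat.card (Fx G S) ≤ Nat.card (Y T)) := by
    intro l
    induction l with
    | zero =>
      intro _
      refine ⟨{1}, ⟨1, by simp⟩, by simp, Or.inr ?_⟩
      simp [Y]
    | succ l ih =>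
      intro hl
      obtain ⟨T, hT, hTl, h⟩ := ih (by omega)
      by_cases hall : ∀ g : G, Fx G (g • S) ≤ Y T
      · exact ⟨T, hT, by omega, Or.inl hall⟩
      · rcases h with h | h
        · exact absurd h hall
        push Not at hall
        obtain ⟨g, hg⟩ := hall
        refine ⟨insert g T, Finset.insert_nonempty g T, ?_, Or.inr ?_⟩
        · have := Finset.card_insert_le g T
          omega
        · have hlt : Y T < Y (insert g T) := by
            apply lt_of_le_of_ne
            · exact biSup_mono fun g' hg' => Finset.mem_insert_of_mem hg'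
            · intro heq
              apply hg
              rw [heq]
              exact le_iSup₂_of_le g (Finset.mem_insert_self g T) le_rfl
          have := two_mul_card_le hlt
          rw [pow_succ]
          linarith
  have hq1 : q - 1 + 1 ≤ q := by omega
  obtain ⟨T, hT, hTq, h⟩ := hchain (q - 1) hq1
  have hTq' : T.card ≤ q := by omega
  have hall : ∀ g : G, Fx G (g • S) ≤ Y T := by
    rcases h with h | h
    · exact h
    · exfalso
      have h1 := hsize T hT hTq'
      have h2 : q - 1 = C ^ (t + 1) := by omega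
      rw [h2] at h
      have h3 : C ^ (t + 1) < 2 ^ (C ^ (t + 1)) := Nat.lt_two_pow_self
      have h4 : 0 < Nat.card (Fx G S) := Nat.card_pos
      have h5 : C ^ (t + 1) * Nat.card (Fx G S) < 2 ^ (C ^ (t + 1)) * Nat.card (Fx G S) :=
        Nat.mul_lt_mul_of_pos_right h3 h4
      omega
  -- normal closure
  set N : Subgroup G := ⨆ g : G, Fx G (g • S) with hN
  have hNle : N ≤ Y T := iSup_le hall
  have hNn : N.Normal := by
    constructor
    intro n hn g
    have h1 : N ≤ N.comap (MulAut.conj g).toMonoidHom := by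
      apply iSup_le
      intro g' u hu
      rw [Subgroup.mem_comap]
      change g * u * g⁻¹ ∈ N
      have h2 : g * u * g⁻¹ ∈ Fx G ((g * g') • S) := by
        rw [mem_Fx_smul] at hu ⊢
        have : (g * g')⁻¹ * (g * u * g⁻¹) * (g * g') = g'⁻¹ * u * g' := by group
        rw [this]
        exact hu
      exact (le_iSup (fun g : G => Fx G (g • S)) (g * g')) h2
    exact h1 hn
  obtain ⟨Θ, γ, hγ, hcard, horb, hinv⟩ := hmain T hT hTq'
  obtain ⟨g0, hg0⟩ := hT
  have hfix : fixedPoints N α ≠ Set.univ := by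
    intro h1
    have h2 : γ ∈ fixedPoints N α := by rw [h1]; exact Set.mem_univ _
    have h3 : Θ ⊆ {γ} := by
      rw [← horb g0 hg0]
      rintro _ ⟨u, rfl⟩
      have h4 : (u : G) ∈ N := (le_iSup (fun g : G => Fx G (g • S)) g0) u.2
      exact h2 ⟨u, h4⟩
    have h4 : Nat.card Θ ≤ 1 := by
      rw [Nat.card_coe_set_eq]
      calc Θ.ncard ≤ ({γ} : Set α).ncard := Set.ncard_le_ncard h3
        _ = 1 := Set.ncard_singleton γ
    omega
  have htr : IsPretransitive N α := IsQuasiPreprimitive.isPretransitive_of_normal hfix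
  apply absurd _ (not_le.2 hn)
  calc Nat.card α = Nat.card (Set.univ : Set α) := (Nat.card_congr (Equiv.Set.univ α)).symm
    _ ≤ Nat.card Θ := by
        apply Nat.card_mono (Set.toFinite _)
        intro y _
        obtain ⟨u, hu⟩ := exists_smul_eq N γ y
        have h1 := hinv u.1 (hNle u.2)
        rw [← hu, ← h1]
        exact Set.smul_mem_smul_set hγ
    _ ≤ C := by rw [hcard]; exact heC

/-- the sequence of sizes -/
def tt (C : ℕ) : ℕ → ℕ
  | 0 => 1
  | j + 1 => tt C j * (C ^ (tt C j + 1) + 1)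

theorem step_three [IsPreprimitive G α] [FaithfulSMul G α] (a : α) {C : ℕ}
    (hC : ∀ x y : α, Nat.card (orbit (stabilizer G x) y) ≤ C) :
    Nat.card α ≤ C ∨ Nat.card (stabilizer G a) ≤ C ^ tt C (C - 1) := by
  classical
  have hC1 : 1 ≤ C := by
    refine le_trans ?_ (hC a a)
    exact Nat.card_pos_iff.2 ⟨⟨a, mem_orbit_self a⟩, inferInstance⟩
  have hiter : ∀ j, j < C → Nat.card α ≤ C ∨ PP G α (C - j) (tt C j) := by
    intro j
    induction j with
    | zero =>
      intro _
      right
      refine ⟨{a}, ⟨a, by simp⟩, by simp [tt], ?_⟩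
      intro γ
      refine le_trans (card_orbit_le_of_le (L := stabilizer G a) ?_ γ) (hC a γ)
      intro g hg
      rw [mem_Fx] at hg
      exact hg a (by simp)
    | succ j ih =>
      intro hj
      rcases ih (by omega) with h | h
      · exact Or.inl h
      · have e1 : C - j = (C - (j + 1)) + 1 := by omega
        rw [e1] at h
        exact descent (by omega) (by omega) hC h
  rcases hiter (C - 1) (by omega) with h | h
  · exact Or.inl h
  · right
    have e1 : C - (C - 1) = 1 := by omega
    rw [e1] at h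
    obtain ⟨S, ⟨s, hs⟩, hSt, hS⟩ := h
    have hbot : Fx G S = ⊥ := by
      rw [eq_bot_iff]
      intro g hg
      rw [Subgroup.mem_bot]
      apply eq_of_smul_eq_smul (α := α)
      intro γ
      rw [one_smul]
      have h1 := hS γ
      have h2 : Subsingleton (orbit (Fx G S) γ) := by
        rw [← Finite.card_le_one_iff_subsingleton]
        exact h1
      have h3 : (⟨g • γ, ⟨⟨g, hg⟩, rfl⟩⟩ : orbit (Fx G S) γ) = ⟨γ, mem_orbit_self γ⟩ :=
        Subsingleton.elim _ _
      exact congrArg Subtype.val h3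
    have h1 : ∀ z : α, Nat.card α * Nat.card (stabilizer G z) = Nat.card G := by
      intro z
      rw [← Nat.card_congr (orbitProdStabilizerEquivGroup G z), Nat.card_prod]
      congr 1
      rw [orbit_eq_univ G z]
      exact (Nat.card_congr (Equiv.Set.univ α)).symm
    have h2 : 0 < Nat.card α := Nat.card_pos_iff.2 ⟨⟨a⟩, inferInstance⟩
    have h3 : Nat.card (stabilizer G a) = Nat.card (stabilizer G s) :=
      Nat.eq_of_mul_eq_mul_left h2 ((h1 a).trans (h1 s).symm)
    rw [h3]
    calc Nat.card (stabilizer G s) ≤ C ^ S.card * Nat.card (Fx G (insert s S)) :=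
          card_stab_le hC1 hC s S
      _ = C ^ S.card := by
          rw [Finset.insert_eq_of_mem hs, hbot]
          simp
      _ ≤ C ^ tt C (C - 1) := Nat.pow_le_pow_right hC1 hSt

end Pool.Agent.H82.Subrank
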