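import Pool.Agent.H82.Subrank.Orbitals

/-!
Second step: either the rank is at most `m ^ 3` or all subdegrees are bounded.
-/

set_option autoImplicit false

namespace Pool.Agent.H82.Subrank

open MulAction Finset

variable (G : Type*) {α : Type*} [Group G] [MulAction G α]

/-- swapping an orbital -/
def swp : orbitRel.Quotient G (α × α) → orbitRel.Quotient G (α × α) :=
  Quotient.lift (fun p => orb G p.2 p.1) (by
    rintro p q hpq
    have h : p ∈ orbit G q := hpq
    obtain ⟨g, rfl⟩ := h
    exact orb_smul G g q.2 q.1)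

theorem swp_orb (x y : α) : swp G (orb G x y) = orb G y x := rfl

variable [Fintype α] [DecidableEq α]

open Classical in
/-- neighbours in an orbital -/
noncomputable def DD (o : orbitRel.Quotient G (α × α)) (x : α) : Finset α :=
  univ.filter (fun y => orb G x y = o)

omit [DecidableEq α] in
theorem mem_DD {o : orbitRel.Quotient G (α × α)} {x y : α} : y ∈ DD G o x ↔ orb G x y = o := by
  simp [DD]

omit [DecidableEq α] in
theorem smul_mem_DD {o : orbitRel.Quotient G (α × α)} {x y : α} (g : G) :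
    g • y ∈ DD G o (g • x) ↔ y ∈ DD G o x := by
  rw [mem_DD, mem_DD, orb_smul]

theorem card_DD_smul (o : orbitRel.Quotient G (α × α)) (x : α) (g : G) :
    (DD G o (g • x)).card = (DD G o x).card := by
  symm
  apply Finset.card_bij (fun y _ => g • y)
  · intro y hy
    exact (smul_mem_DD G g).2 hy
  · intro y _ y' _ h
    exact smul_left_cancel g h
  · intro y hy
    refine ⟨g⁻¹ • y, ?_, smul_inv_smul g y⟩
    rw [← smul_mem_DD G g, smul_inv_smul]
    exact hy

theorem card_DD [IsPretransitive G α] (o : orbitRel.Quotient G (α × α)) (x y : α) :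
    (DD G o x).card = (DD G o y).card := by
  obtain ⟨g, rfl⟩ := exists_smul_eq G y x
  exact card_DD_smul G o y g

theorem card_DD' [IsPretransitive G α] (o : orbitRel.Quotient G (α × α)) {k : ℕ}
    (hk : ∀ x, (DD G o x).card = k) (z : α) :
    (univ.filter (fun y => z ∈ DD G o y)).card = k := by
  have hconst : ∀ z z', (univ.filter (fun y => z ∈ DD G o y)).card
      = (univ.filter (fun y => z' ∈ DD G o y)).card := by
    intro z z'
    obtain ⟨g, rfl⟩ := exists_smul_eq G z' z
    symm
    apply Finset.card_bij (fun y _ => g • y)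
    · intro y hy
      simp only [mem_filter, mem_univ, true_and] at hy ⊢
      exact (smul_mem_DD G g).2 hy
    · intro y _ y' _ h
      exact smul_left_cancel g h
    · intro y hy
      simp only [mem_filter, mem_univ, true_and] at hy
      refine ⟨g⁻¹ • y, ?_, smul_inv_smul g y⟩
      simp only [mem_filter, mem_univ, true_and]
      rw [← smul_mem_DD G g, smul_inv_smul]
      exact hy
  have h1 : ∑ z', (univ.filter (fun y => z' ∈ DD G o y)).card = ∑ y : α, (DD G o y).card := by
    simp only [Finset.card_filter]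
    rw [Finset.sum_comm]
    refine Finset.sum_congr rfl fun y _ => ?_
    rw [← Finset.card_filter]
    congr 1
    ext z'
    simp
  rw [Finset.sum_congr rfl (fun z' _ => hconst z' z), Finset.sum_congr rfl (fun y _ => hk y)] at h1
  simp only [sum_const, card_univ, smul_eq_mul] at h1
  have hn : 0 < Fintype.card α := Fintype.card_pos_iff.2 ⟨z⟩
  exact Nat.eq_of_mul_eq_mul_left hn h1

theorem II_smul (o : orbitRel.Quotient G (α × α)) (g : G) (x w : α) :
    II (DD G o) (g • x) (g • w) = II (DD G o) x w := by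
  unfold II
  symm
  apply Finset.card_bij (fun y _ => g • y)
  · intro y hy
    rw [Finset.mem_inter] at hy ⊢
    exact ⟨(smul_mem_DD G g).2 hy.1, (smul_mem_DD G g).2 hy.2⟩
  · intro y _ y' _ h
    exact smul_left_cancel g h
  · intro y hy
    rw [Finset.mem_inter] at hy
    refine ⟨g⁻¹ • y, ?_, smul_inv_smul g y⟩
    rw [Finset.mem_inter, ← smul_mem_DD G g, ← smul_mem_DD G (x := w) g, smul_inv_smul]
    exact hy

omit [Fintype α] in
theorem II_comm (D : α → Finset α) (x w : α) : II D x w = II D w x := by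
  unfold II
  rw [Finset.inter_comm]

theorem Dst_smul (o : orbitRel.Quotient G (α × α)) (g : G) (x y : α) :
    Dst (DD G o) (g • x) (g • y) = Dst (DD G o) x y := by
  unfold Dst
  rw [← Equiv.sum_comp (MulAction.toPerm g)]
  refine Finset.sum_congr rfl fun w _ => ?_
  simp only [MulAction.toPerm_apply]
  rw [II_smul, II_smul]

/-- union of at most `m` orbitals -/
theorem card_union_DD [IsPretransitive G α] {m k : ℕ} (β : Set (orbitRel.Quotient G (α × α)))
    (hβ : β.ncard ≤ m) (hmax : ∀ (o : orbitRel.Quotient G (α × α)) (x : α), (DD G o x).card ≤ k) (x : α) (S : Finset α)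
    (hS : ∀ w ∈ S, orb G x w ∈ β) : S.card ≤ m * k := by
  classical
  have hfin : β.Finite := Set.toFinite β
  have h1 : S ⊆ hfin.toFinset.biUnion (fun o => DD G o x) := by
    intro w hw
    rw [Finset.mem_biUnion]
    exact ⟨orb G x w, hfin.mem_toFinset.2 (hS w hw), (mem_DD G).2 rfl⟩
  calc S.card ≤ (hfin.toFinset.biUnion (fun o => DD G o x)).card := Finset.card_le_card h1
    _ ≤ ∑ o ∈ hfin.toFinset, (DD G o x).card := Finset.card_biUnion_le
    _ ≤ ∑ o ∈ hfin.toFinset, k := Finset.sum_le_sum fun o _ => hmax o x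
    _ = β.ncard * k := by
        rw [Finset.sum_const, smul_eq_mul, Set.ncard_eq_toFinset_card β hfin]
    _ ≤ m * k := Nat.mul_le_mul_right k hβ

/-- the relation at scale `i` -/
def RR (m k : ℕ) (o : orbitRel.Quotient G (α × α)) (i : ℕ) (x y : α) : Prop :=
  ((m * 4 ^ i : ℕ) : ℤ) * Dst (DD G o) x y ≤ (k : ℤ) ^ 3

theorem RR_smul {m k : ℕ} {o : orbitRel.Quotient G (α × α)} {i : ℕ} {x y : α} (g : G) :
    RR G m k o i (g • x) (g • y) ↔ RR G m k o i x y := by
  unfold RR
  rw [Dst_smul]

theorem RR_orb {m k : ℕ} {o : orbitRel.Quotient G (α × α)} {i : ℕ} {x y x' y' : α}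
    (h : orb G x y = orb G x' y') (h1 : RR G m k o i x' y') : RR G m k o i x y := by
  rw [orb_eq_iff] at h
  obtain ⟨g, rfl, rfl⟩ := h
  exact (RR_smul G g).2 h1

theorem RR_anti {m k : ℕ} {o : orbitRel.Quotient G (α × α)} {i j : ℕ} (hij : i ≤ j) {x y : α}
    (h : RR G m k o j x y) : RR G m k o i x y := by
  unfold RR at h ⊢
  refine le_trans ?_ h
  apply mul_le_mul_of_nonneg_right _ (Dst_nonneg _ x y)
  have : m * 4 ^ i ≤ m * 4 ^ j := Nat.mul_le_mul_left m (Nat.pow_le_pow_right (by norm_num) hij)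
  exact_mod_cast this

theorem RR_comp {m k : ℕ} {o : orbitRel.Quotient G (α × α)} {i : ℕ} {x y z : α}
    (h1 : RR G m k o (i + 1) x y) (h2 : RR G m k o (i + 1) y z) : RR G m k o i x z := by
  unfold RR at h1 h2 ⊢
  have h3 := Dst_triangle (DD G o) x y z
  have e : ((m * 4 ^ (i + 1) : ℕ) : ℤ) = 4 * ((m * 4 ^ i : ℕ) : ℤ) := by
    push_cast
    ring
  rw [e] at h1 h2
  have h4 : ((m * 4 ^ i : ℕ) : ℤ) * Dst (DD G o) x z
      ≤ ((m * 4 ^ i : ℕ) : ℤ) * (2 * Dst (DD G o) x y + 2 * Dst (DD G o) y z) :=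
    mul_le_mul_of_nonneg_left h3 (by positivity)
  linarith

theorem RR_self {m k : ℕ} {o : orbitRel.Quotient G (α × α)} {i : ℕ} (x : α) :
    RR G m k o i x x := by
  unfold RR
  rw [Dst_self, mul_zero]
  positivity

theorem RR_symm {m k : ℕ} {o : orbitRel.Quotient G (α × α)} {i : ℕ} {x y : α}
    (h : RR G m k o i x y) : RR G m k o i y x := by
  unfold RR at h ⊢
  rwa [Dst_comm]

theorem orb_of_II {o : orbitRel.Quotient G (α × α)} {x w : α} (h : II (DD G o) x w ≠ 0) :
    orb G x w ∈ KK G (swp G o) (swp G o) := by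
  unfold II at h
  obtain ⟨z, hz⟩ := Finset.card_pos.1 (Nat.pos_of_ne_zero h)
  rw [Finset.mem_inter, mem_DD, mem_DD] at hz
  refine ⟨z, x, w, ?_, ?_, rfl⟩
  · rw [← hz.1, swp_orb]
  · rw [← hz.2, swp_orb]

theorem orb_of_RR [IsPretransitive G α] {m k : ℕ} (hm : 1 ≤ m) (hk : 0 < k)
    {o : orbitRel.Quotient G (α × α)}
    (hK : ∀ p q : orbitRel.Quotient G (α × α), (KK G p q).ncard ≤ m)
    (hD : ∀ x, (DD G o x).card = k) (hmax : ∀ (o : orbitRel.Quotient G (α × α)) (x : α), (DD G o x).card ≤ k) {x y : α}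
    (h : RR G m k o 0 x y) :
    ∃ p ∈ KK G (swp G o) (swp G o), ∃ q ∈ KK G (swp G o) (swp G o), orb G x y ∈ KK G p q := by
  classical
  by_contra hcon
  have hdis : ∀ w, II (DD G o) x w = 0 ∨ II (DD G o) y w = 0 := by
    intro w
    by_contra hw
    push Not at hw
    apply hcon
    refine ⟨orb G w x, orb_of_II G (by rw [II_comm]; exact hw.1), orb G w y,
      orb_of_II G (by rw [II_comm]; exact hw.2), w, x, y, rfl, rfl, rfl⟩
  have hD' := card_DD' G o hD
  -- lower bound for the norm
  have hnorm : ∀ u : α, (k : ℤ) ^ 3 ≤ m * ∑ w, (II (DD G o) u w : ℤ) ^ 2 := by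
    intro u
    set S : Finset α := univ.filter (fun w => II (DD G o) u w ≠ 0) with hS
    have hScard : S.card ≤ m * k := by
      apply card_union_DD G _ (hK (swp G o) (swp G o)) hmax u S
      intro w hw
      rw [hS, Finset.mem_filter] at hw
      exact orb_of_II G hw.2
    have hsum : ∑ w ∈ S, (II (DD G o) u w : ℤ) = (k : ℤ) * k := by
      have h1 := sum_II (DD G o) hD hD' u
      have h2 : ∑ w, (II (DD G o) u w : ℤ) = (k : ℤ) * k := by exact_mod_cast h1
      rw [← h2]
      apply Finset.sum_subset (Finset.subset_univ _)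
      intro w _ hw
      rw [hS, Finset.mem_filter] at hw
      push Not at hw
      rw [hw (Finset.mem_univ _)]
      rfl
    have hcs := sq_sum_le_card_mul_sum_sq (s := S) (f := fun w => (II (DD G o) u w : ℤ))
    rw [hsum] at hcs
    have h3 : ∑ w ∈ S, (II (DD G o) u w : ℤ) ^ 2 ≤ ∑ w, (II (DD G o) u w : ℤ) ^ 2 :=
      Finset.sum_le_sum_of_subset_of_nonneg (Finset.subset_univ _) fun _ _ _ => sq_nonneg _
    have h4 : (S.card : ℤ) ≤ m * k := by exact_mod_cast hScard
    have hk' : (0 : ℤ) < k := by exact_mod_cast hk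
    have h5 : (k : ℤ) * k ^ 3 ≤ k * (m * ∑ w, (II (DD G o) u w : ℤ) ^ 2) := by
      calc (k : ℤ) * k ^ 3 = ((k : ℤ) * k) ^ 2 := by ring
        _ ≤ S.card * ∑ w ∈ S, (II (DD G o) u w : ℤ) ^ 2 := hcs
        _ ≤ (m * k) * ∑ w, (II (DD G o) u w : ℤ) ^ 2 := by
            apply mul_le_mul h4 h3 (Finset.sum_nonneg fun _ _ => sq_nonneg _) (by positivity)
        _ = k * (m * ∑ w, (II (DD G o) u w : ℤ) ^ 2) := by ring
    exact le_of_mul_le_mul_left h5 hk'
  have hDst : Dst (DD G o) x y = ∑ w, (II (DD G o) x w : ℤ) ^ 2 + ∑ w, (II (DD G o) y w : ℤ) ^ 2 := by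
    unfold Dst
    rw [← Finset.sum_add_distrib]
    refine Finset.sum_congr rfl fun w _ => ?_
    rcases hdis w with h1 | h1 <;> rw [h1] <;> push_cast <;> ring
  unfold RR at h
  rw [hDst] at h
  have h1 := hnorm x
  have h2 := hnorm y
  have hk3 : (0 : ℤ) < (k : ℤ) ^ 3 := by positivity
  push_cast at h
  linarith

/-- orbitals at scale `i` -/
def RO (m k : ℕ) (o : orbitRel.Quotient G (α × α)) (i : ℕ) : Set (orbitRel.Quotient G (α × α)) :=
  {r | ∃ x y, orb G x y = r ∧ RR G m k o i x y}

theorem ncard_RO [IsPretransitive G α] {m k : ℕ} (hm : 1 ≤ m) (hk : 0 < k)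
    {o : orbitRel.Quotient G (α × α)}
    (hK : ∀ p q : orbitRel.Quotient G (α × α), (KK G p q).ncard ≤ m)
    (hD : ∀ x, (DD G o x).card = k) (hmax : ∀ (o : orbitRel.Quotient G (α × α)) (x : α), (DD G o x).card ≤ k) :
    (RO G m k o 0).ncard ≤ m ^ 3 := by
  classical
  set β := KK G (swp G o) (swp G o) with hβ
  have hfin : β.Finite := Set.toFinite β
  have hβc : β.ncard ≤ m := hK _ _
  have h1 : RO G m k o 0 ⊆ ⋃ p ∈ hfin.toFinset, ⋃ q ∈ hfin.toFinset, KK G p q := by
    rintro r ⟨x, y, rfl, hR⟩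
    obtain ⟨p, hp, q, hq, h⟩ := orb_of_RR G hm hk hK hD hmax hR
    simp only [Set.mem_iUnion]
    exact ⟨p, hfin.mem_toFinset.2 hp, q, hfin.mem_toFinset.2 hq, h⟩
  have hcard : hfin.toFinset.card ≤ m := by
    rw [← Set.ncard_eq_toFinset_card β hfin]
    exact hβc
  calc (RO G m k o 0).ncard
      ≤ (⋃ p ∈ hfin.toFinset, ⋃ q ∈ hfin.toFinset, KK G p q).ncard :=
        Set.ncard_le_ncard h1 (Set.toFinite _)
    _ ≤ ∑ p ∈ hfin.toFinset, (⋃ q ∈ hfin.toFinset, KK G p q).ncard :=
        Finset.set_ncard_biUnion_le _ _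
    _ ≤ ∑ p ∈ hfin.toFinset, ∑ q ∈ hfin.toFinset, (KK G p q).ncard :=
        Finset.sum_le_sum fun p _ => Finset.set_ncard_biUnion_le _ _
    _ ≤ ∑ p ∈ hfin.toFinset, ∑ q ∈ hfin.toFinset, m :=
        Finset.sum_le_sum fun p _ => Finset.sum_le_sum fun q _ => hK p q
    _ = hfin.toFinset.card * (hfin.toFinset.card * m) := by
        simp
    _ ≤ m * (m * m) := Nat.mul_le_mul hcard (Nat.mul_le_mul_right m hcard)
    _ = m ^ 3 := by ring

theorem step_two [IsPreprimitive G α] {m : ℕ} (hm : 1 ≤ m) (a : α)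
    (hK : ∀ p q : orbitRel.Quotient G (α × α), (KK G p q).ncard ≤ m) :
    Nat.card (orbitRel.Quotient G (α × α)) ≤ m ^ 3 ∨
      ∀ (o : orbitRel.Quotient G (α × α)) (x : α),
        (DD G o x).card ≤ 2 * m ^ (8 * m * 4 ^ (m ^ 3)) := by
  classical
  have : Nonempty (orbitRel.Quotient G (α × α)) := ⟨orb G a a⟩
  obtain ⟨o, ho⟩ := Finite.exists_max (fun o : orbitRel.Quotient G (α × α) => (DD G o a).card)
  set k := (DD G o a).card with hk
  have hD : ∀ x, (DD G o x).card = k := fun x => card_DD G o x a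
  have hmax : ∀ o' x, (DD G o' x).card ≤ k := fun o' x => by
    rw [card_DD G o' x a]
    exact ho o'
  have hkpos : 0 < k := by
    have h1 : 0 < (DD G (orb G a a) a).card := Finset.card_pos.2 ⟨a, (mem_DD G).2 rfl⟩
    exact lt_of_lt_of_le h1 (ho _)
  have hD' := card_DD' G o hD
  have hRO := ncard_RO G hm hkpos hK hD hmax
  set M := m ^ 3 with hM
  set L := 8 * m * 4 ^ M with hL
  -- pigeonhole
  have hanti : ∀ i, RO G m k o (i + 1) ⊆ RO G m k o i := by
    rintro i r ⟨x, y, hr, hR⟩
    exact ⟨x, y, hr, RR_anti G (Nat.le_succ i) hR⟩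
  have hne : ∀ i, (RO G m k o i).Nonempty := fun i => ⟨_, a, a, rfl, RR_self G a⟩
  have hpig : ∃ i, i < M ∧ RO G m k o (i + 1) = RO G m k o i := by
    by_contra hcon
    push Not at hcon
    have h1 : ∀ j, j ≤ M → (RO G m k o j).ncard + j ≤ M := by
      intro j
      induction j with
      | zero =>
        intro _
        simpa using hRO
      | succ j ih =>
        intro hj
        have h2 := ih (by omega)
        have h3 : (RO G m k o (j + 1)).ncard < (RO G m k o j).ncard :=
          Set.ncard_lt_ncard (lt_of_le_of_ne (hanti j) (hcon j (by omega))) (Set.toFinite _)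
        omega
    have h2 := h1 M le_rfl
    have h3 : 0 < (RO G m k o M).ncard := (Set.ncard_pos (Set.toFinite _)).2 (hne M)
    omega
  obtain ⟨i, hi, hEq⟩ := hpig
  have htrans : ∀ x y z, RR G m k o (i + 1) x y → RR G m k o (i + 1) y z →
      RR G m k o (i + 1) x z := by
    intro x y z h1 h2
    have h3 : orb G x z ∈ RO G m k o i := ⟨x, z, rfl, RR_comp G h1 h2⟩
    rw [← hEq] at h3
    obtain ⟨x', y', h4, h5⟩ := h3
    exact RR_orb G h4.symm h5
  have hblock : IsBlock G {y | RR G m k o (i + 1) a y} := by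
    rw [isBlock_iff_smul_eq_of_mem]
    intro g x hx hgx
    simp only [Set.mem_ofPred_eq] at hx hgx
    have h1 : RR G m k o (i + 1) a (g • a) := by
      apply htrans _ _ _ hgx
      exact RR_symm G ((RR_smul G g).2 hx)
    ext y
    rw [Set.mem_smul_set_iff_inv_smul_mem]
    simp only [Set.mem_ofPred_eq]
    rw [← RR_smul G g, smul_inv_smul]
    constructor
    · intro h2
      exact htrans _ _ _ h1 h2
    · intro h2
      exact htrans _ _ _ (RR_symm G h1) h2
  rcases IsPreprimitive.isTrivialBlock_of_isBlock hblock with hsub | huniv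
  · right
    intro o' x
    refine (hmax o' x).trans ?_
    by_contra hbig
    push Not at hbig
    -- sampling
    obtain ⟨x, _, x', _, hne', hdist⟩ := sampling (L := L) (m := m) (DD G o) hkpos (by positivity)
      hD hD' (univ.filter (fun y => a ∈ DD G o y))
      (univ.filter (fun z => orb G a z ∈ KK G o o)) (hD' a)
      (by
        apply card_union_DD G _ (hK o o) hmax a
        intro w hw
        rw [Finset.mem_filter] at hw
        exact hw.2)
      (by
        intro x hx z hz
        rw [Finset.mem_filter] at hx ⊢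
        refine ⟨Finset.mem_univ _, x, a, z, ?_, ?_, rfl⟩
        · exact (mem_DD G).1 hx.2
        · exact (mem_DD G).1 hz)
      hbig
    have hR : RR G m k o M x x' := by
      unfold RR
      have e : (L : ℤ) = 8 * ((m * 4 ^ M : ℕ) : ℤ) := by
        rw [hL]
        push_cast
        ring
      rw [e] at hdist
      linarith
    have hR' : RR G m k o (i + 1) x x' := RR_anti G (by omega) hR
    obtain ⟨g, hg⟩ := exists_smul_eq G x a
    have h1 : RR G m k o (i + 1) a (g • x') := by
      rw [← hg]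
      exact (RR_smul G g).2 hR'
    have h2 : a = g • x' := hsub (RR_self G a) h1
    apply hne'
    rw [← hg] at h2
    exact smul_left_cancel g h2
  · left
    have h1 : (Set.univ : Set (orbitRel.Quotient G (α × α))) ⊆ RO G m k o 0 := by
      intro r _
      induction r using Quotient.inductionOn with
      | _ p =>
        obtain ⟨g, hg⟩ := exists_smul_eq G p.1 a
        have h2 : g • p.2 ∈ {y | RR G m k o (i + 1) a y} := by
          rw [huniv]
          exact Set.mem_univ _
        have h3 : RR G m k o (i + 1) p.1 p.2 := by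
          rw [← RR_smul G g, hg]
          exact h2
        exact ⟨p.1, p.2, rfl, RR_anti G (Nat.zero_le _) h3⟩
    calc Nat.card (orbitRel.Quotient G (α × α))
        = (Set.univ : Set (orbitRel.Quotient G (α × α))).ncard := (Set.ncard_univ _).symm
      _ ≤ (RO G m k o 0).ncard := Set.ncard_le_ncard h1 (Set.toFinite _)
      _ ≤ M := hRO

end Pool.Agent.H82.Subrank
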